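import Mathlib
import Pool.Graph.R_seed8.Results.MP_a310d2_co.UnboundedRatio

/-!
# Deleting a vertex can raise the outer mutual-visibility number from at most three to any value

The graph `Γ n` is a path `x = (0,0), (0,1), …, (0,4ⁿ)` together with, for `i = 1, …, n`, a further
path `x, (i,1), …, (i,4ⁱ-1), (0,4ⁱ)` of length `4ⁱ`.  We show that its outer mutual-visibility sets
have at most three elements.
-/

namespace Pool.Agent.Results.MP_a310d2_co.AtMostThree

open SimpleGraph Pool.Agent.Results.MP_a310d2_co.UnboundedRatio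

variable {n : ℕ}

/-- The boundary of a strand. -/
theorem boundary_all {j : ℕ} (hj : j ≤ n) (hj0 : j ≠ 0) :
    ∀ a b : verts n, a.1.1 = j → ¬ b.1.1 = j → (Γ n).Adj a b →
      b = x n ∨ b = mk 0 (4 ^ j) (mem_rim (Nat.pow_le_pow_right (by norm_num) hj)) := by
  rintro ⟨⟨i, h⟩, hp⟩ ⟨⟨i', h'⟩, hp'⟩ hZ hZ' hadj
  simp only at hZ hZ'
  subst hZ
  rcases hadj with ⟨e1, e2⟩ | ⟨e1, e2⟩
  · simp only at e1 e2
    rcases e2 with rfl | e2 | ⟨rfl, e2⟩
    · exact absurd rfl hZ'
    · exfalso
      subst e2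
      have hv := mem_verts.1 hp
      simp only [Prod.mk.injEq] at hv
      omega
    · right
      apply Subtype.ext
      simp only [UnboundedRatio.mk, Prod.mk.injEq, true_and]
      omega
  · simp only at e1 e2
    rcases e2 with rfl | e2 | ⟨e2, -⟩
    · exact absurd rfl hZ'
    · left
      exact zero_of_height e2
    · exact absurd e2 hj0

/-- If the far end of the rim is in `S`, the elements of `S` on the strands are next to the hub. -/
theorem top_leg {S : Finset (verts n)} (hS : IsOuterMV (Γ n) S) {j d : ℕ} (hj : j ≤ n)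
    (hj0 : j ≠ 0) (h1 : 1 ≤ d) (h2 : d < 4 ^ j)
    (hT : mk 0 (4 ^ n) (mem_rim le_rfl) ∈ S) (hd : mk j d (mem_leg hj h1 h2) ∈ S) : d = 1 := by
  by_contra hne
  have hd2 : 1 ≤ d - 1 := by omega
  have hjn : 4 ^ j ≤ 4 ^ n := Nat.pow_le_pow_right (by norm_num) hj
  have hblk := blocked (G := Γ n) (S := S) (Z := fun p => p.1.1 = j ∧ p.1.2 < d)
    (s := mk j d (mem_leg hj h1 h2)) (q := x n)
    (u := mk 0 (4 ^ n) (mem_rim le_rfl)) (v := mk j (d - 1) (mem_leg hj hd2 (by omega)))
    (boundary_down hj hj0 h1 h2) ?_ ?_ hd ?_ ?_ ?_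
  · exact hblk.1 (hS _ hT _)
  · simp only [UnboundedRatio.mk]; omega
  · simp only [UnboundedRatio.mk, true_and]; omega
  · intro h
    have := congrArg (fun p : verts n => p.1.1) h
    simp only [UnboundedRatio.mk] at this
    omega
  · intro h
    have := congrArg (fun p : verts n => p.1.2) h
    simp only [UnboundedRatio.mk] at this
    omega
  · have e2 := dist_rim (n := n) (a := 4 ^ j) (b := 4 ^ n) hjn le_rfl
    have e3 := dist_top hj hd2 (show d - 1 < 4 ^ j by omega)
    rw [SimpleGraph.dist_comm] at e2 e3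
    have e5 := (connected n).dist_triangle (u := mk 0 (4 ^ n) (mem_rim le_rfl))
      (v := mk 0 (4 ^ j) (mem_rim hjn))
      (w := mk j (d - 1) (mem_leg hj hd2 (by omega)))
    have e6 := dist_lower (connected n) (x n) (mk 0 (4 ^ n) (mem_rim le_rfl))
    rw [SimpleGraph.dist_comm] at e6
    have e7 := dist_lower (connected n) (x n) (mk j (d - 1) (mem_leg hj hd2 (by omega)))
    simp only [UnboundedRatio.mk, x] at e2 e3 e5 e6 e7 ⊢
    omega

/-- If the hub is in `S`, the elements of `S` on the strands are on the longest one. -/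
theorem hub_leg {S : Finset (verts n)} (hS : IsOuterMV (Γ n) S) {j d : ℕ} (hj : j ≤ n)
    (hj0 : j ≠ 0) (h1 : 1 ≤ d) (h2 : d < 4 ^ j)
    (hx : x n ∈ S) (hd : mk j d (mem_leg hj h1 h2) ∈ S) : j = n := by
  by_contra hne
  have hjn : 4 * 4 ^ j ≤ 4 ^ n := by
    rw [← pow_succ']
    exact Nat.pow_le_pow_right (by norm_num) (by omega)
  have hblk := blocked (G := Γ n) (S := S) (Z := fun p => p.1.1 = n)
    (s := x n) (q := mk 0 (4 ^ n) (mem_rim le_rfl))
    (u := mk j d (mem_leg hj h1 h2)) (v := mk n 1 (mem_leg le_rfl le_rfl (by omega)))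
    (boundary_all le_rfl (by omega)) ?_ ?_ hx ?_ ?_ ?_
  · exact hblk.1 (hS _ hd _)
  · simp only [UnboundedRatio.mk]; omega
  · simp only [UnboundedRatio.mk]
  · intro h
    have := congrArg (fun p : verts n => p.1.2) h
    simp only [UnboundedRatio.mk, x] at this
    omega
  · intro h
    have := congrArg (fun p : verts n => p.1.2) h
    simp only [UnboundedRatio.mk, x] at this
    omega
  · have e1 := dist_hub hj h1 h2
    have e2 := dist_hub (n := n) (i := n) (h := 1) le_rfl le_rfl (by omega)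
    rw [SimpleGraph.dist_comm] at e2
    have e5 := (connected n).dist_triangle (u := mk j d (mem_leg hj h1 h2)) (v := x n)
      (w := mk n 1 (mem_leg le_rfl le_rfl (by omega)))
    have e6 := dist_lower (connected n) (mk j d (mem_leg hj h1 h2)) (mk 0 (4 ^ n) (mem_rim le_rfl))
    have e7 := dist_lower (connected n) (mk n 1 (mem_leg le_rfl le_rfl (by omega)))
      (mk 0 (4 ^ n) (mem_rim le_rfl))
    rw [SimpleGraph.dist_comm] at e7
    simp only [UnboundedRatio.mk, x] at e1 e2 e5 e6 e7 ⊢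
    omega

/-- The hub and its neighbour on the longest strand are not both in `S`. -/
theorem hub_low {S : Finset (verts n)} (hS : IsOuterMV (Γ n) S) (hn : 2 ≤ n)
    (h2 : 1 < 4 ^ n) (hx : x n ∈ S) (hd : mk n 1 (mem_leg le_rfl le_rfl h2) ∈ S) : False := by
  have hblk := blocked (G := Γ n) (S := S) (Z := fun p => p.1.1 = 1)
    (s := x n) (q := mk 0 (4 ^ 1) (mem_rim (Nat.pow_le_pow_right (by norm_num) (by omega))))
    (u := mk n 1 (mem_leg le_rfl le_rfl h2)) (v := mk 1 1 (mem_leg (by omega) le_rfl (by norm_num)))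
    (boundary_all (by omega) (by omega)) ?_ ?_ hx ?_ ?_ ?_
  · exact hblk.1 (hS _ hd _)
  · simp only [UnboundedRatio.mk]; omega
  · simp only [UnboundedRatio.mk]
  · intro h
    have := congrArg (fun p : verts n => p.1.2) h
    simp only [UnboundedRatio.mk, x] at this
    omega
  · intro h
    have := congrArg (fun p : verts n => p.1.2) h
    simp only [UnboundedRatio.mk, x] at this
    omega
  · have e1 := dist_hub (n := n) (i := n) (h := 1) le_rfl le_rfl h2
    have e2 := dist_hub (n := n) (i := 1) (h := 1) (by omega) le_rfl (by norm_num)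
    rw [SimpleGraph.dist_comm] at e2
    have e5 := (connected n).dist_triangle (u := mk n 1 (mem_leg le_rfl le_rfl h2)) (v := x n)
      (w := mk 1 1 (mem_leg (by omega) le_rfl (by norm_num)))
    have e6 := dist_lower (connected n) (mk n 1 (mem_leg le_rfl le_rfl h2))
      (mk 0 (4 ^ 1) (mem_rim (Nat.pow_le_pow_right (by norm_num) (by omega))))
    have e7 := dist_lower (connected n) (mk 1 1 (mem_leg (by omega) le_rfl (by norm_num)))
      (mk 0 (4 ^ 1) (mem_rim (Nat.pow_le_pow_right (by norm_num) (by omega))))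
    rw [SimpleGraph.dist_comm] at e7
    simp only [UnboundedRatio.mk, x] at e1 e2 e5 e6 e7 ⊢
    omega

/-- Two elements of an outer mutual-visibility set on the rim: the upper one is its far end. -/
theorem rim_two {S : Finset (verts n)} (hS : IsOuterMV (Γ n) S) {p q : verts n} (hp : p ∈ S)
    (hq : q ∈ S) (p1 : p.1.1 = 0) (q1 : q.1.1 = 0) (p2 : p.1.2 ≠ 0) (h : p.1.2 < q.1.2) :
    q = mk 0 (4 ^ n) (mem_rim le_rfl) := by
  obtain ⟨⟨i, a⟩, ha⟩ := p
  obtain ⟨⟨j, b⟩, hb⟩ := q
  simp only at p1 q1 p2 h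
  subst p1 q1
  have vb := (mem_verts.1 hb).1.2
  simp only at vb
  by_contra hne
  have hb4 : b ≠ 4 ^ n := by
    rintro rfl
    exact hne rfl
  exact rim_three hS (by omega) h (lt_of_le_of_ne vb hb4) le_rfl hp hq

/-- Two elements of an outer mutual-visibility set on one strand coincide. -/
theorem leg_eq {S : Finset (verts n)} (hS : IsOuterMV (Γ n) S) {p q : verts n} (hp : p ∈ S)
    (hq : q ∈ S) (hpq : p.1.1 = q.1.1) (h0 : p.1.1 ≠ 0) (p2 : p.1.2 ≠ 0) (q2 : q.1.2 ≠ 0) :
    p = q := by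
  obtain ⟨⟨i, a⟩, ha⟩ := p
  obtain ⟨⟨j, b⟩, hb⟩ := q
  simp only at hpq h0 p2 q2
  subst hpq
  have va := mem_verts.1 ha
  have vb := mem_verts.1 hb
  simp only [Prod.mk.injEq, h0, false_and, false_or] at va vb
  rcases lt_trichotomy a b with h | h | h
  · exact (leg_two hS va.1.1 h0 va.2.1 h vb.2.2 hp hq).elim
  · subst h
    rfl
  · exact (leg_two hS va.1.1 h0 vb.2.1 h va.2.2 hq hp).elim

/-- Every outer mutual-visibility set of `Γ n` has at most three elements. -/
theorem card_le_three (hn : 2 ≤ n) {S : Finset (verts n)} (hS : IsOuterMV (Γ n) S) :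
    S.card ≤ 3 := by
  classical
  set A := S.filter (fun p => p.1.2 = 0) with hA
  set B := S.filter (fun p => p.1.2 ≠ 0 ∧ p.1.1 = 0) with hB
  set C := S.filter (fun p => p.1.2 ≠ 0 ∧ p.1.1 ≠ 0) with hC
  have hcover : S ⊆ A ∪ B ∪ C := by
    intro p hp
    simp only [hA, hB, hC, Finset.mem_union, Finset.mem_filter]
    tauto
  have hcard : S.card ≤ A.card + B.card + C.card := by
    have h1 := Finset.card_le_card hcover
    have h2 := Finset.card_union_le (A ∪ B) C
    have h3 := Finset.card_union_le A B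
    omega
  have hAc : A.card ≤ 1 := by
    rw [Finset.card_le_one]
    intro p hp q hq
    rw [hA, Finset.mem_filter] at hp hq
    rw [zero_of_height hp.2, zero_of_height hq.2]
  have hA0 : x n ∉ S → A.card = 0 := by
    intro hx
    rw [Finset.card_eq_zero, Finset.eq_empty_iff_forall_notMem]
    intro p hp
    rw [hA, Finset.mem_filter] at hp
    exact hx (zero_of_height hp.2 ▸ hp.1)
  -- the rim
  have hB1 : mk 0 (4 ^ n) (mem_rim le_rfl) ∉ S → B.card ≤ 1 := by
    intro hT
    rw [Finset.card_le_one]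
    intro p hp q hq
    rw [hB, Finset.mem_filter] at hp hq
    rcases lt_trichotomy p.1.2 q.1.2 with h | h | h
    · exact absurd (rim_two hS hp.1 hq.1 hp.2.2 hq.2.2 hp.2.1 h ▸ hq.1) hT
    · exact Subtype.ext (Prod.ext (hp.2.2.trans hq.2.2.symm) h)
    · exact absurd (rim_two hS hq.1 hp.1 hq.2.2 hp.2.2 hq.2.1 h ▸ hp.1) hT
  have hB2 : B.card ≤ 2 := by
    by_contra hlt
    push Not at hlt
    have h1 : 1 < (B.erase (mk 0 (4 ^ n) (mem_rim le_rfl))).card := by
      have := Finset.pred_card_le_card_erase (s := B) (a := mk 0 (4 ^ n) (mem_rim le_rfl))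
      omega
    obtain ⟨p, hp, q, hq, hpq⟩ := Finset.one_lt_card.1 h1
    rw [Finset.mem_erase, hB, Finset.mem_filter] at hp hq
    rcases lt_trichotomy p.1.2 q.1.2 with h | h | h
    · exact hq.1 (rim_two hS hp.2.1 hq.2.1 hp.2.2.2 hq.2.2.2 hp.2.2.1 h)
    · exact hpq (Subtype.ext (Prod.ext (hp.2.2.2.trans hq.2.2.2.symm) h))
    · exact hp.1 (rim_two hS hq.2.1 hp.2.1 hq.2.2.2 hp.2.2.2 hq.2.2.1 h)
  -- the strands
  have hCc : C.card ≤ 2 := by
    by_contra hlt
    push Not at hlt
    obtain ⟨p, q, r, hp, hq, hr, hpq, hpr, hqr⟩ := Finset.two_lt_card_iff.1 hlt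
    rw [hC, Finset.mem_filter] at hp hq hr
    have hij : p.1.1 ≠ q.1.1 := fun h => hpq (leg_eq hS hp.1 hq.1 h hp.2.2 hp.2.1 hq.2.1)
    have hik : p.1.1 ≠ r.1.1 := fun h => hpr (leg_eq hS hp.1 hr.1 h hp.2.2 hp.2.1 hr.2.1)
    have hjk : q.1.1 ≠ r.1.1 := fun h => hqr (leg_eq hS hq.1 hr.1 h hq.2.2 hq.2.1 hr.2.1)
    obtain ⟨⟨i, a⟩, ha⟩ := p
    obtain ⟨⟨j, b⟩, hb⟩ := q
    obtain ⟨⟨k, c⟩, hc⟩ := r
    obtain ⟨hp1, hp2, hp3⟩ := hp
    obtain ⟨hq1, hq2, hq3⟩ := hq
    obtain ⟨hr1, hr2, hr3⟩ := hr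
    simp only at hp2 hp3 hq2 hq3 hr2 hr3 hij hik hjk
    have va := mem_verts.1 ha
    have vb := mem_verts.1 hb
    have vc := mem_verts.1 hc
    simp only [Prod.mk.injEq, hp3, hq3, hr3, false_and, false_or] at va vb vc
    rcases lt_or_gt_of_ne hij with h1 | h1 <;> rcases lt_or_gt_of_ne hik with h2 | h2 <;>
      rcases lt_or_gt_of_ne hjk with h3 | h3
    · exact legs_three hS vc.1.1 h1 h3 va.2.1 va.2.2 vb.2.1 vb.2.2 vc.2.1 vc.2.2 hp1 hq1 hr1
    · exact legs_three hS vb.1.1 h2 h3 va.2.1 va.2.2 vc.2.1 vc.2.2 vb.2.1 vb.2.2 hp1 hr1 hq1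
    · omega
    · exact legs_three hS vb.1.1 h2 h1 vc.2.1 vc.2.2 va.2.1 va.2.2 vb.2.1 vb.2.2 hr1 hp1 hq1
    · exact legs_three hS vc.1.1 h1 h2 vb.2.1 vb.2.2 va.2.1 va.2.2 vc.2.1 vc.2.2 hq1 hp1 hr1
    · omega
    · exact legs_three hS va.1.1 h3 h2 vb.2.1 vb.2.2 vc.2.1 vc.2.2 va.2.1 va.2.2 hq1 hr1 hp1
    · exact legs_three hS va.1.1 h3 h1 vc.2.1 vc.2.2 vb.2.1 vb.2.2 va.2.1 va.2.2 hr1 hq1 hp1
  -- elements of the strands next to the hub if the far end is in `S`
  have hlow : mk 0 (4 ^ n) (mem_rim le_rfl) ∈ S → ∀ p ∈ C, p.1.2 = 1 := by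
    intro hT p hp
    rw [hC, Finset.mem_filter] at hp
    obtain ⟨⟨i, a⟩, ha⟩ := p
    obtain ⟨hp1, hp2, hp3⟩ := hp
    simp only at hp2 hp3 ⊢
    have va := mem_verts.1 ha
    simp only [Prod.mk.injEq, hp3, false_and, false_or] at va
    exact top_leg hS va.1.1 hp3 va.2.1 va.2.2 hT hp1
  have hC1 : mk 0 (4 ^ n) (mem_rim le_rfl) ∈ S → C.card ≤ 1 := by
    intro hT
    rw [Finset.card_le_one]
    -- two different strands are impossible
    have key : ∀ p ∈ C, ∀ q ∈ C, p.1.1 < q.1.1 → False := by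
      intro p hp q hq hlt
      have lp := hlow hT p hp
      have lq := hlow hT q hq
      rw [hC, Finset.mem_filter] at hp hq
      obtain ⟨⟨i, a⟩, ha⟩ := p
      obtain ⟨⟨j, b⟩, hb⟩ := q
      obtain ⟨hp1, hp2, hp3⟩ := hp
      obtain ⟨hq1, hq2, hq3⟩ := hq
      simp only at hp2 hp3 hq2 hq3 lp lq hlt
      subst lp lq
      have va := mem_verts.1 ha
      have vb := mem_verts.1 hb
      simp only [Prod.mk.injEq, hp3, hq3, false_and, false_or] at va vb
      have h1 := legs_high hS vb.1.1 hlt va.2.1 va.2.2 vb.2.1 vb.2.2 hp1 hq1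
      have h3 : 4 * 4 ^ i ≤ 4 ^ j := by
        rw [← pow_succ']
        exact Nat.pow_le_pow_right (by norm_num) hlt
      have h4 := va.2.2
      omega
    intro p hp q hq
    rcases lt_trichotomy p.1.1 q.1.1 with h | h | h
    · exact (key p hp q hq h).elim
    · have hp' := hp
      have hq' := hq
      rw [hC, Finset.mem_filter] at hp' hq'
      exact leg_eq hS hp'.1 hq'.1 h hp'.2.2 hp'.2.1 hq'.2.1
    · exact (key q hq p hp h).elim
  -- the hub
  have hxn : x n ∈ S → ∀ p ∈ C, p.1.1 = n := by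
    intro hx p hp
    rw [hC, Finset.mem_filter] at hp
    obtain ⟨⟨i, a⟩, ha⟩ := p
    obtain ⟨hp1, hp2, hp3⟩ := hp
    simp only at hp2 hp3 ⊢
    have va := mem_verts.1 ha
    simp only [Prod.mk.injEq, hp3, false_and, false_or] at va
    exact hub_leg hS va.1.1 hp3 va.2.1 va.2.2 hx hp1
  have hxC : x n ∈ S → C.card ≤ 1 := by
    intro hx
    rw [Finset.card_le_one]
    intro p hp q hq
    have h := (hxn hx p hp).trans (hxn hx q hq).symm
    rw [hC, Finset.mem_filter] at hp hq
    exact leg_eq hS hp.1 hq.1 h hp.2.2 hp.2.1 hq.2.1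
  have hxT : x n ∈ S → mk 0 (4 ^ n) (mem_rim le_rfl) ∈ S → C.card = 0 := by
    intro hx hT
    rw [Finset.card_eq_zero, Finset.eq_empty_iff_forall_notMem]
    intro p hp
    have l1 := hxn hx p hp
    have l2 := hlow hT p hp
    rw [hC, Finset.mem_filter] at hp
    obtain ⟨⟨i, a⟩, ha⟩ := p
    obtain ⟨hp1, hp2, hp3⟩ := hp
    simp only at hp2 hp3 l1 l2
    subst l1 l2
    have va := mem_verts.1 ha
    simp only [Prod.mk.injEq, hp3, false_and, false_or] at va
    exact hub_low hS hn va.2.2 hx hp1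
  by_cases hx : x n ∈ S
  · by_cases hT : mk 0 (4 ^ n) (mem_rim le_rfl) ∈ S
    · have := hxT hx hT
      omega
    · have h1 := hB1 hT
      have h2 := hxC hx
      omega
  · have h0 := hA0 hx
    by_cases hT : mk 0 (4 ^ n) (mem_rim le_rfl) ∈ S
    · have := hC1 hT
      omega
    · have h1 := hB1 hT
      omega

theorem upper_three (hn : 2 ≤ n) : muO (Γ n) ≤ 3 := by
  apply csSup_le'
  rintro m ⟨S, hS, rfl⟩
  exact card_le_three hn hS

/-- A vertex `b` which is at least as far from `a` as every other vertex is not an inner vertex of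
a shortest path starting at `a`. -/
theorem far_not_internal {V : Type*} {G : SimpleGraph V} {a b v : V}
    (hb : G.dist a v ≤ G.dist a b) (w : G.Walk a v) (hw : w.length = G.dist a v)
    (hbw : b ∈ w.support) : b = v := by
  classical
  have h1 := Pool.Agent.R46.geo_between hw hbw
  have h2 : G.dist b v = 0 := by omega
  have h3 : G.Reachable b v := (w.dropUntil b hbw).reachable
  exact (h3.dist_eq_zero_iff).1 h2

/-- A connected graph with at least two vertices has an outer mutual-visibility set of size two. -/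
theorem two_le (V : Type) [Finite V] [Nontrivial V] (G : SimpleGraph V) (hG : G.Connected) :
    2 ≤ muO G := by
  classical
  have := Fintype.ofFinite V
  obtain ⟨p, -, hp⟩ := Finset.exists_max_image (Finset.univ : Finset (V × V))
    (fun p => G.dist p.1 p.2) ⟨(Classical.arbitrary V, Classical.arbitrary V), Finset.mem_univ _⟩
  obtain ⟨a, b⟩ := p
  simp only [Finset.mem_univ, forall_const, Prod.forall] at hp
  have hab : a ≠ b := by
    rintro rfl
    obtain ⟨c, d, hcd⟩ := exists_pair_ne V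
    have h1 := hp c d
    rw [SimpleGraph.dist_self] at h1
    have h2 := hG.pos_dist_of_ne hcd
    omega
  apply le_csSup
  · refine ⟨Nat.card V, ?_⟩
    rintro m ⟨S, -, rfl⟩
    rw [Nat.card_eq_fintype_card]
    exact Finset.card_le_univ S
  · refine ⟨{a, b}, ?_, Finset.card_pair hab⟩
    intro u hu v
    obtain ⟨w, hw⟩ := hG.exists_walk_length_eq_dist u v
    refine ⟨w, hw, ?_⟩
    intro z hz hzu hzv hzS
    rw [Finset.mem_insert, Finset.mem_singleton] at hu hzS
    rcases hu with rfl | rfl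
    · rcases hzS with rfl | rfl
      · exact hzu rfl
      · exact hzv (far_not_internal (hp _ _) w hw hz)
    · rcases hzS with rfl | rfl
      · refine hzv (far_not_internal ?_ w hw hz)
        rw [G.dist_comm (u := u) (v := z)]
        exact hp _ _
      · exact hzu rfl

/-- **Main result.** For every `n` there are a finite connected graph `G` and a vertex `x` of `G`
such that `G - x` is connected, `μₒ(G) ≤ 3` and `μₒ(G - x) ≥ n`; and every finite connected graph
with at least two vertices has `μₒ(G) ≥ 2`. -/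
theorem result :
    (∀ n : ℕ, ∃ (V : Type) (_ : Finite V) (G : SimpleGraph V) (x : V),
      G.Connected ∧ (G.induce {v | v ≠ x}).Connected ∧ muO G ≤ 3 ∧
        n ≤ muO (G.induce {v | v ≠ x})) ∧
    (∀ (V : Type) [Finite V] [Nontrivial V] (G : SimpleGraph V), G.Connected → 2 ≤ muO G) := by
  refine ⟨?_, fun V _ _ G hG => two_le V G hG⟩
  intro n
  refine ⟨verts (n + 2), inferInstance, Γ (n + 2), x (n + 2), connected _, connected' (by omega),
    upper_three (by omega), ?_⟩
  have := lower (n := n + 2) (by omega)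
  unfold Γ' at this
  omega

end Pool.Agent.Results.MP_a310d2_co.AtMostThree
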